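import Pool.Agent.Helper32.FJL.Defs
import Pool.Agent.Helper35.FJL.Tails

set_option autoImplicit false

/-!
FJL-6: the second round (flat vector, random signs, Hadamard matrix): few bad blocks.
-/

namespace Pool.Agent.FJL

open Finset Pool.Agent.Helper67.JL

namespace StepTwo

/-- The `t` largest coordinates. -/
theorem exists_top {I : Type} [Fintype I] [DecidableEq I] (f : I → ℝ) (t : ℕ) :
    ∃ T : Finset I, T.card ≤ t ∧ (∀ i ∉ T, ∀ j ∈ T, f i ≤ f j) ∧ (T.card = t ∨ T = univ) := by
  induction t with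
  | zero => exact ⟨∅, by simp, by simp, Or.inl (by simp)⟩
  | succ t ih =>
    obtain ⟨T, hT1, hT2, hT3⟩ := ih
    rcases Finset.eq_empty_or_nonempty Tᶜ with he | he
    · refine ⟨T, by omega, hT2, Or.inr ?_⟩
      exact (compl_eq_empty_iff T).mp he
    · obtain ⟨i, hi, hmax⟩ := exists_max_image Tᶜ f he
      have hiT : i ∉ T := by simpa using hi
      refine ⟨insert i T, ?_, ?_, ?_⟩
      · rw [card_insert_of_notMem hiT]
        omega
      · intro k hk j hj
        have hk1 : k ∉ T := fun h => hk (mem_insert_of_mem h)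
        rcases mem_insert.mp hj with rfl | hj
        · exact hmax k (by simpa using hk1)
        · exact hT2 k hk1 j hj
      · rcases hT3 with h | h
        · left
          rw [card_insert_of_notMem hiT, h]
        · exact absurd (h ▸ mem_univ i) hiT

theorem add_sq_le (a b : ℝ) : (a + b) ^ 2 ≤ 2 * a ^ 2 + 2 * b ^ 2 := by nlinarith [sq_nonneg (a - b)]

theorem one_block {I : Type} [Fintype I] [DecidableEq I] [Nonempty I]
    (H : I → I → ℝ) (h1 : ∀ i j, H i j ^ 2 ≤ 1 / (Fintype.card I : ℝ))
    (h2 : ∀ x : I → ℝ, ∑ i, (∑ j, H i j * x j) ^ 2 ≤ ∑ j, x j ^ 2)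
    (w : I → ℝ) (hw : ∑ j, w j ^ 2 ≤ 1) (L u : ℝ) (hL : 1 ≤ L) (_hu : 1 ≤ u)
    (T : Finset I) (hT : ∑ j ∈ T, w j ^ 2 ≤ 3 * L * u / (Fintype.card I : ℝ))
    (hTc : ∀ j ∉ T, w j ^ 2 ≤ 2 * L / (Fintype.card I : ℝ))
    (Q : Finset I) (q v : ℝ) (hQ : (Q.card : ℝ) ≤ q) (hv : 0 ≤ v) :
    pr (fun s : I → Bool => (6 * L * u + 4 * q + 16 * L * v) / (Fintype.card I : ℝ) ≤
      ∑ i ∈ Q, (app H fun j => sg (s j) * w j) i ^ 2) ≤ Real.exp (-v) := by
  classical
  set m : ℝ := (Fintype.card I : ℝ) with hm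
  have hm0 : 0 < m := by
    rw [hm]
    exact_mod_cast Fintype.card_pos
  set W : I → I → ℝ := fun j k => if k ∈ Q then (if j ∈ T then 0 else H k j * w j) else 0 with hW
  have hWsum : ∀ (a : I → ℝ) (k : I), ∑ j, a j * W j k =
      if k ∈ Q then ∑ j, H k j * (if j ∈ T then 0 else a j * w j) else 0 := by
    intro a k
    by_cases hk : k ∈ Q
    · simp only [hW, hk, if_true]
      apply sum_congr rfl
      intro j _
      split_ifs <;> ring
    · simp [hW, hk]
  have hop : ∀ a : I → ℝ, ∑ k, (∑ i, a i * W i k) ^ 2 ≤ (2 * L / m) * ∑ i, a i ^ 2 := by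
    intro a
    calc ∑ k, (∑ i, a i * W i k) ^ 2
        ≤ ∑ k, (∑ j, H k j * (if j ∈ T then 0 else a j * w j)) ^ 2 := by
          apply sum_le_sum
          intro k _
          rw [hWsum]
          split_ifs
          · exact le_rfl
          · simpa using sq_nonneg _
      _ ≤ ∑ j, (if j ∈ T then 0 else a j * w j) ^ 2 := h2 _
      _ ≤ ∑ j, (2 * L / m) * a j ^ 2 := by
          apply sum_le_sum
          intro j _
          split_ifs with hj
          · have : 0 ≤ 2 * L / m * a j ^ 2 := by positivity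
            simpa using this
          · rw [mul_pow, mul_comm]
            exact mul_le_mul_of_nonneg_right (hTc j hj) (sq_nonneg _)
      _ = (2 * L / m) * ∑ i, a i ^ 2 := by rw [mul_sum]
  have htr : ∑ i, ∑ k, W i k ^ 2 ≤ q / m := by
    calc ∑ j, ∑ k, W j k ^ 2 ≤ ∑ j, ∑ k ∈ Q, (1 / m) * w j ^ 2 := by
          apply sum_le_sum
          intro j _
          rw [← sum_filter_add_sum_filter_not univ (fun k => k ∈ Q)]
          have e1 : ∑ k ∈ univ.filter (fun k => ¬ k ∈ Q), W j k ^ 2 = 0 := by
            apply sum_eq_zero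
            intro k hk
            have : k ∉ Q := (mem_filter.mp hk).2
            simp [hW, this]
          rw [e1, add_zero, Finset.filter_mem_eq_inter, univ_inter]
          apply sum_le_sum
          intro k hk
          simp only [hW, hk, if_true]
          split_ifs
          · have : 0 ≤ 1 / m * w j ^ 2 := by positivity
            simpa using this
          · rw [mul_pow]
            exact mul_le_mul_of_nonneg_right (h1 k j) (sq_nonneg _)
      _ = (Q.card / m) * ∑ j, w j ^ 2 := by
          simp only [sum_const, nsmul_eq_mul, mul_sum]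
          apply sum_congr rfl
          intro j _
          ring
      _ ≤ (Q.card / m) * 1 := by
          apply mul_le_mul_of_nonneg_left hw
          positivity
      _ ≤ q / m := by
          rw [mul_one]
          gcongr
  have hB : 0 < 2 * L / m := by positivity
  refine le_trans (pr_mono ?_) (chaos_tail W (2 * L / m) (q / m) v hB hv hop htr)
  intro s hs
  have hsplit : ∑ i ∈ Q, (app H fun j => sg (s j) * w j) i ^ 2 ≤
      2 * (3 * L * u / m) + 2 * ∑ k, (∑ i, sg (s i) * W i k) ^ 2 := by
    calc ∑ i ∈ Q, (app H fun j => sg (s j) * w j) i ^ 2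
        ≤ ∑ i ∈ Q, (2 * (∑ j, H i j * (if j ∈ T then sg (s j) * w j else 0)) ^ 2 +
            2 * (∑ j, sg (s j) * W j i) ^ 2) := by
          apply sum_le_sum
          intro i hi
          refine le_trans (le_of_eq ?_) (add_sq_le _ _)
          congr 1
          rw [hWsum, if_pos hi, ← sum_add_distrib]
          unfold app
          apply sum_congr rfl
          intro j _
          split_ifs <;> ring
      _ = 2 * ∑ i ∈ Q, (∑ j, H i j * (if j ∈ T then sg (s j) * w j else 0)) ^ 2 +
            2 * ∑ i ∈ Q, (∑ j, sg (s j) * W j i) ^ 2 := by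
          rw [sum_add_distrib, mul_sum, mul_sum]
      _ ≤ 2 * (3 * L * u / m) + 2 * ∑ k, (∑ i, sg (s i) * W i k) ^ 2 := by
          have e1 : ∑ i ∈ Q, (∑ j, H i j * (if j ∈ T then sg (s j) * w j else 0)) ^ 2 ≤
              3 * L * u / m := by
            calc ∑ i ∈ Q, (∑ j, H i j * (if j ∈ T then sg (s j) * w j else 0)) ^ 2
                ≤ ∑ i, (∑ j, H i j * (if j ∈ T then sg (s j) * w j else 0)) ^ 2 :=
                  sum_le_univ_sum_of_nonneg (fun i => sq_nonneg _)
              _ ≤ ∑ j, (if j ∈ T then sg (s j) * w j else 0) ^ 2 := h2 _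
              _ = ∑ j ∈ T, w j ^ 2 := by
                  rw [← sum_filter_add_sum_filter_not univ (fun k => k ∈ T)]
                  have e1 : ∑ j ∈ univ.filter (fun k => ¬ k ∈ T),
                      (if j ∈ T then sg (s j) * w j else 0) ^ 2 = 0 := by
                    apply sum_eq_zero
                    intro k hk
                    have : k ∉ T := (mem_filter.mp hk).2
                    simp [this]
                  rw [e1, add_zero, Finset.filter_mem_eq_inter, univ_inter]
                  apply sum_congr rfl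
                  intro k hk
                  rw [if_pos hk, mul_pow, sg_sq, one_mul]
              _ ≤ _ := hT
          have e2 : ∑ i ∈ Q, (∑ j, sg (s j) * W j i) ^ 2 ≤
              ∑ k, (∑ i, sg (s i) * W i k) ^ 2 :=
            sum_le_univ_sum_of_nonneg (fun i => sq_nonneg _)
          linarith
  have h3 : (6 * L * u + 4 * q + 16 * L * v) / m ≤
      2 * (3 * L * u / m) + 2 * ∑ k, (∑ i, sg (s i) * W i k) ^ 2 := hs.trans hsplit
  have h4 : (6 * L * u + 4 * q + 16 * L * v) / m =
      2 * (3 * L * u / m) + 2 * (2 * (q / m) + 4 * (2 * L / m) * v) := by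
    field_simp
    ring
  linarith

end StepTwo

theorem step2 {I B : Type} [Fintype I] [DecidableEq I] [Nonempty I] [Fintype B] [DecidableEq B]
    (H : I → I → ℝ) (h1 : ∀ i j, H i j ^ 2 ≤ 1 / (Fintype.card I : ℝ))
    (h2 : ∀ x : I → ℝ, ∑ i, (∑ j, H i j * x j) ^ 2 ≤ ∑ j, x j ^ 2)
    (w : I → ℝ) (hw : ∑ j, w j ^ 2 ≤ 1) (L u : ℝ) (hL : 1 ≤ L) (hu : 1 ≤ u)
    (hflat : ∀ Q : Finset I, ∑ i ∈ Q, w i ^ 2 ≤ L * (Q.card + u) / (Fintype.card I : ℝ))
    (blk : I → B) (p : ℕ) (hp : ∀ b, (univ.filter fun i => blk i = b).card ≤ p)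
    (hBI : Fintype.card B ≤ Fintype.card I)
    (hpL : 24 * L * Real.log (2 * Fintype.card I) ≤ p) :
    pr (fun s : I → Bool => ¬ (
        ((badSet blk p (app H fun j => sg (s j) * w j)).card : ℝ) * p ≤ 5 * L * u ∧
        ∑ i ∈ univ.filter (fun i => blk i ∈ badSet blk p (app H fun j => sg (s j) * w j)),
            (app H fun j => sg (s j) * w j) i ^ 2 ≤
          55 * L * u / (Fintype.card I : ℝ))) ≤ Real.exp (-u) := by
  classical
  set m : ℝ := (Fintype.card I : ℝ) with hm
  have hm1 : 1 ≤ m := by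
    rw [hm]
    exact_mod_cast Fintype.card_pos
  have hm0 : 0 < m := by linarith
  have hlog : 0 < Real.log (2 * m) := Real.log_pos (by linarith)
  obtain ⟨T, hT1, hT2, hT3⟩ := StepTwo.exists_top (fun i => w i ^ 2) ⌈u⌉₊
  have hceil1 : u ≤ (⌈u⌉₊ : ℝ) := Nat.le_ceil u
  have hceil2 : (⌈u⌉₊ : ℝ) < u + 1 := Nat.ceil_lt_add_one (by linarith)
  have hTw : ∑ j ∈ T, w j ^ 2 ≤ 3 * L * u / m := by
    refine (hflat T).trans ?_
    rw [mul_assoc 3 L u]
    apply div_le_div_of_nonneg_right _ hm0.le
    have : (T.card : ℝ) ≤ ⌈u⌉₊ := by exact_mod_cast hT1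
    nlinarith
  have hTc : ∀ j ∉ T, w j ^ 2 ≤ 2 * L / m := by
    intro j hj
    rcases hT3 with h | h
    · have hc : ((⌈u⌉₊ : ℕ) : ℝ) * w j ^ 2 ≤ ∑ i ∈ T, w i ^ 2 := by
        rw [← h, ← nsmul_eq_mul]
        exact card_nsmul_le_sum T _ _ (fun i hi => hT2 j hj i hi)
      have h5 := hc.trans (hflat T)
      rw [h] at h5
      have h6 : L * (((⌈u⌉₊ : ℕ) : ℝ) + u) / m ≤ ((⌈u⌉₊ : ℕ) : ℝ) * (2 * L / m) := by
        rw [mul_div_assoc', div_le_div_iff_of_pos_right hm0]
        nlinarith
      have hpos : (0 : ℝ) < ((⌈u⌉₊ : ℕ) : ℝ) := by linarith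
      exact le_of_mul_le_mul_left (h5.trans h6) hpos
    · exact absurd (h ▸ mem_univ j) hj
  -- the bad event
  set y : (I → Bool) → I → ℝ := fun s => app H fun j => sg (s j) * w j with hy
  have key : ∀ 𝓑 ∈ (univ : Finset (Finset B)).erase ∅,
      pr (fun s : I → Bool => (22 * L * u + 4 * (𝓑.card * p) + 16 * L * (𝓑.card * Real.log (2 * m))) / m
        ≤ ∑ i ∈ univ.filter (fun i => blk i ∈ 𝓑), (y s) i ^ 2) ≤
        Real.exp (-u) * (1 / (2 * m)) ^ 𝓑.card := by
    intro 𝓑 _
    have hQ : ((univ.filter (fun i => blk i ∈ 𝓑)).card : ℝ) ≤ (𝓑.card : ℝ) * p := by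
      have : (univ.filter (fun i => blk i ∈ 𝓑)).card ≤ 𝓑.card * p := by
        refine card_le_mul_card_image_of_maps_to (f := blk) (t := 𝓑) ?_ p ?_ |>.trans ?_
        · intro i hi
          exact (mem_filter.mp hi).2
        · intro b _
          refine (card_le_card ?_).trans (hp b)
          intro i hi
          simp only [mem_filter, mem_univ, true_and] at hi ⊢
          exact hi.2
        · rw [mul_comm]
      exact_mod_cast this
    have hv : 0 ≤ u + 𝓑.card * Real.log (2 * m) := by positivity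
    have := StepTwo.one_block H h1 h2 w hw L u hL hu T hTw hTc _ _ _ hQ hv
    refine le_trans (pr_mono ?_) (this.trans (le_of_eq ?_))
    · intro s hs
      refine le_trans (le_of_eq ?_) hs
      rw [← hm]
      ring
    · rw [neg_add, Real.exp_add, ← mul_neg, Real.exp_nat_mul, Real.exp_neg (Real.log _),
        Real.exp_log (by linarith), one_div]
  have hunion : pr (fun s : I → Bool => ∃ 𝓑 ∈ (univ : Finset (Finset B)).erase ∅,
      (22 * L * u + 4 * (𝓑.card * p) + 16 * L * (𝓑.card * Real.log (2 * m))) / m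
        ≤ ∑ i ∈ univ.filter (fun i => blk i ∈ 𝓑), (y s) i ^ 2) ≤ Real.exp (-u) := by
    refine (pr_exists_le _ _).trans ((sum_le_sum key).trans ?_)
    rw [← mul_sum]
    have hs1 : ∑ 𝓑 ∈ (univ : Finset (Finset B)), (1 / (2 * m)) ^ 𝓑.card =
        (1 / (2 * m) + 1) ^ Fintype.card B := by
      have := Finset.sum_pow_mul_eq_add_pow (1 / (2 * m)) (1 : ℝ) (univ : Finset B)
      rw [card_univ] at this
      rw [← this]
      simp
    have hs2 : ∑ 𝓑 ∈ (univ : Finset (Finset B)).erase ∅, (1 / (2 * m)) ^ 𝓑.card =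
        (1 / (2 * m) + 1) ^ Fintype.card B - 1 := by
      have := Finset.add_sum_erase (univ : Finset (Finset B)) (fun 𝓑 => (1 / (2 * m)) ^ 𝓑.card)
        (mem_univ ∅)
      rw [hs1] at this
      simp only [card_empty, pow_zero] at this
      linarith
    have hs3 : (1 / (2 * m) + 1) ^ Fintype.card B ≤ 2 := by
      have e1 : (1 / (2 * m) + 1) ^ Fintype.card B ≤ Real.exp (1 / (2 * m)) ^ Fintype.card B := by
        apply pow_le_pow_left₀ (by positivity)
        exact Real.add_one_le_exp _
      have e2 : Real.exp (1 / (2 * m)) ^ Fintype.card B ≤ Real.exp (1 / 2) := by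
        rw [← Real.exp_nat_mul]
        apply Real.exp_le_exp.mpr
        have : (Fintype.card B : ℝ) ≤ m := by
          rw [hm]
          exact_mod_cast hBI
        rw [mul_one_div, div_le_div_iff₀ (by positivity) (by norm_num)]
        linarith
      have e3 : Real.exp (1 / 2) ≤ 2 := by
        have h := Real.exp_one_lt_d9
        have h2 : Real.exp (1 / 2) ^ 2 = Real.exp 1 := by
          rw [← Real.exp_nat_mul]
          norm_num
        nlinarith [Real.exp_pos (1 / 2 : ℝ)]
      linarith
    rw [hs2]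
    have := Real.exp_pos (-u)
    nlinarith
  refine le_trans (pr_mono ?_) hunion
  intro s hs
  by_contra hcon
  apply hs
  push Not at hcon
  set 𝓑 := badSet blk p (y s) with h𝓑
  have hLu : 0 ≤ L * u := by positivity
  by_cases hne : 𝓑 = ∅
  · rw [hne]
    refine ⟨by simpa using by positivity, ?_⟩
    simpa using by positivity
  · have hc := hcon 𝓑 (mem_erase.mpr ⟨hne, mem_univ _⟩)
    have hmass : (𝓑.card : ℝ) * (12 * p / m) ≤
        ∑ i ∈ univ.filter (fun i => blk i ∈ 𝓑), (y s) i ^ 2 := by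
      have e1 : ∑ i ∈ univ.filter (fun i => blk i ∈ 𝓑), (y s) i ^ 2 =
          ∑ b ∈ 𝓑, ∑ i ∈ univ.filter (fun i => blk i = b), (y s) i ^ 2 := by
        rw [← sum_fiberwise_of_maps_to (g := blk) (t := 𝓑)
          (fun i hi => (mem_filter.mp hi).2)]
        apply sum_congr rfl
        intro b hb
        apply sum_congr _ (fun _ _ => rfl)
        ext i
        simp only [mem_filter, mem_univ, true_and]
        constructor
        · rintro ⟨_, h⟩
          exact h
        · intro h
          exact ⟨h ▸ hb, h⟩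
      rw [e1, ← nsmul_eq_mul]
      apply card_nsmul_le_sum
      intro b hb
      exact ((mem_badSet blk p (y s) b).mp hb).le
    set S := ∑ i ∈ univ.filter (fun i => blk i ∈ 𝓑), (y s) i ^ 2 with hS
    set n : ℝ := (𝓑.card : ℝ) with hn
    have hn0 : 0 ≤ n := Nat.cast_nonneg _
    have h7 : 16 * L * (n * Real.log (2 * m)) ≤ 2 / 3 * (n * p) := by
      have := mul_le_mul_of_nonneg_left hpL hn0
      nlinarith
    have h8 : S * m < 22 * L * u + 4 * (n * p) + 16 * L * (n * Real.log (2 * m)) := by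
      rwa [lt_div_iff₀ hm0] at hc
    have h9 : n * (12 * p) ≤ S * m := by
      rw [mul_div_assoc'] at hmass
      rwa [div_le_iff₀ hm0] at hmass
    constructor
    · nlinarith
    · rw [le_div_iff₀ hm0]
      nlinarith

end Pool.Agent.FJL
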